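import Pool.Agent.Helper12.NK.St

set_option autoImplicit false

namespace Pool.Agent.Helper38.NK

open Pool.Agent.Helper12.NK
open Pool.Agent.Helper51.AJ (IsMinor Planar Apex ExMinor Con Tch)
open Pool.Agent.Helper35.PM (Rot)

private theorem rst_le {V : Type} (G : SimpleGraph V) (U : Set V) : rst G U ≤ G := fun _ _ h => h.1

private theorem rst_add {V : Type} (G : SimpleGraph V) (U N : Set V) (y : V) (hy : y ∉ U) :
    rst (add (rst G U) y N) (insert y U \ {y}) = rst G U := by
  ext a b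
  constructor
  · rintro ⟨h, ha, hb⟩
    have ha' : a ≠ y := fun h' => ha.2 h'
    have hb' : b ≠ y := fun h' => hb.2 h'
    rcases h with h | h | h
    · exact h
    · exact absurd h.1 ha'
    · exact absurd h.1 hb'
  · intro h
    have ha : a ∈ U := h.2.1
    have hb : b ∈ U := h.2.2
    refine ⟨Or.inl h, ⟨Or.inr ha, ?_⟩, ⟨Or.inr hb, ?_⟩⟩
    · intro h'
      exact hy (by rw [← (h' : a = y)]; exact ha)
    · intro h'
      exact hy (by rw [← (h' : b = y)]; exact hb)

theorem hTUT : StKCA → StKCB → StKUR → StRDN → StFCY → StPER → StINT → StRPW → StTUT := by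
  intro hKCA hKCB hKUR hRDN hFCY hPER hINT hRPW V _ G U N y hK hN h3 hy hP
  have hK' : Kc 3 (add (rst G U) y N) (insert y U) := (hKCB V G U).2 y N hK hy hN h3
  obtain ⟨ha1, -, -, -, -, ha6, -, -⟩ := hKCA V (add (rst G U) y N) (insert y U)
  have hP' : Planar (rst (add (rst G U) y N) (insert y U)) :=
    ha6 _ _ (rst_le _ _) hP
  obtain ⟨R⟩ := hKUR V (add (rst G U) y N) (insert y U) hK' hP'
  have hR := hRDN V (add (rst G U) y N) (insert y U) y R hK' (Set.mem_insert y U)
  rw [rst_add G U N y hy] at hR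
  obtain ⟨R', d', hd'⟩ := hR
  have hK2 : Kc 2 G U := (hKCA V G U).1 2 hK
  obtain ⟨⟨m, c, hc, hcr, -⟩, -⟩ := hFCY V G U R' hK2 d'
  refine ⟨m, c, hPER V G U R' hK m c hc, ?_, ?_⟩
  · intro b hb
    rw [hcr]
    have hby : b ≠ y := fun h' => hy (by rw [← h']; exact hN hb)
    exact hd' b (Or.inr (hN hb)) (Or.inr (Or.inl ⟨rfl, hb, hby⟩))
  · intro A B hA hB hAB u v hu hv huv
    apply hRPW V
    exact hINT V (rst G U) R' m c u v A B hc huv (fun x h => hu h.2.1) (fun x h => hv h.2.1) hA hB hAB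

end Pool.Agent.Helper38.NK
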